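import Pool.Agent.Lib_MP_c084f5_al.DetIffMonomial

namespace Pool.Agent.Results.MP_c084f5_al.DetIffMonomial

open Pool.Agent.NumSgp

/-- For every field and every minimally generated numerical semigroup, condition (1)
(determinantal defining ideal with homogeneous entries of positive degree) is equivalent to
condition (2) (the cyclic matrix of pure powers after a permutation). -/
theorem result (k : Type*) [Field k] {n : ℕ} (a : Fin n → ℕ) (ha : IsMinGen a) :
    Cond1 k a ↔ Cond2 k a :=
  cond1_iff_cond2 ha

end Pool.Agent.Results.MP_c084f5_al.DetIffMonomial
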