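import Pool.Agent.Lib_MP_c084f5_al.ThreeToTwo
import Pool.Agent.Lib_MP_c084f5_al.FourGen

namespace Pool.Agent.Results.MP_c084f5_al.FourGenerators

open Pool.Agent.NumSgp

/-- For `n = 4` condition (3) implies condition (2), over every field. -/
theorem result (k : Type*) [Field k] (a : Fin 4 → ℕ) (ha : IsMinGen a) (h3 : Cond3 a) :
    Cond2 k a := by
  obtain ⟨h, α, hα, hPF⟩ := h3
  exact cond2_of_arith_unique k (by norm_num) ha ⟨hα, hPF⟩
    (fun c c' hc hc' => four_unique ha ⟨hα, hPF⟩ c c' hc hc')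

end Pool.Agent.Results.MP_c084f5_al.FourGenerators
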