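import Pool.Agent.Lib_MP_c084f5_al.ThreeToTwo

namespace Pool.Agent.Results.MP_c084f5_al.MultipleInH

open Pool.Agent.NumSgp

/-- Let `n ≥ 3`, `PF(H) = {h + α, .., h + (n-1) α}` with `α > 0`, and suppose that `nα ∈ H`.
Then condition (2) holds over every field. -/
theorem result (k : Type*) [Field k] {n : ℕ} (hn : 3 ≤ n) (a : Fin n → ℕ) (ha : IsMinGen a)
    (h α : ℤ) (hα : 0 < α) (hPF : PF a = {x | ∃ j : ℕ, 1 ≤ j ∧ j < n ∧ x = h + j * α})
    (hnα : (n : ℤ) * α ∈ sgp a) :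
    Cond2 k a :=
  cond2_of_arith_n_alpha k hn ha ⟨hα, hPF⟩ hnα

end Pool.Agent.Results.MP_c084f5_al.MultipleInH
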